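import Pool.Agent.TH381.RM3.Defs
import Pool.Agent.TH479.RM2.Belt

/-!
# Project RM3, part BELT: the pipeline fed by a belt, given start states of the stages
-/

set_option autoImplicit false

namespace Pool.Agent.TH621.RM3

open Pool.Agent.H584R2.Dg Pool.Agent.W614.Dg Pool.Agent.TH381.RM Pool.Agent.TH381.RM2
open Pool.Agent.TH805.RM (rule_buf)
open Pool.Agent.TH381.RM3 (runs)
open Pool.Agent.TH479.RM2 (rt em DD DD_lt heads speed run_none run_some nonErasing_belt)

section belt

variable {S : Type} (τ : Dgsm S) (s : ℕ → τ.Q) (y : List S) (l : ℕ)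

/-- the cells -/
def XX (t n : ℕ) : Cell (belt τ) := Pool.Agent.TH381.RM3.cb τ s y l t (-(n : ℤ))

/-- the states at the time `0` -/
def qq (n : ℕ) : (belt τ).Q :=
  if l ≤ n then (none : Option τ.Q) else (some (s (l - n - 1)) : Option τ.Q)

/-- the buffers at the time `0` -/
def oo (n : ℕ) : List S := if l ≤ n then (y[n - l]?).toList else []

/-- the words lost by the cells -/
def RR (n : ℕ) : List S := if l ≤ n then y.drop (n - l) else runs τ s y (l - n)

variable {τ s y l}

lemma qq_pos {n : ℕ} (h : l ≤ n) : qq τ s l n = (none : Option τ.Q) := if_pos h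

lemma qq_neg {n : ℕ} (h : ¬ l ≤ n) :
    qq τ s l n = (some (s (l - n - 1)) : Option τ.Q) := if_neg h

lemma oo_pos {n : ℕ} (h : l ≤ n) : oo y l n = (y[n - l]?).toList := if_pos h

lemma oo_neg {n : ℕ} (h : ¬ l ≤ n) : oo y l n = [] := if_neg h

lemma RR_pos {n : ℕ} (h : l ≤ n) : RR τ s y l n = y.drop (n - l) := if_pos h

lemma RR_neg {n : ℕ} (h : ¬ l ≤ n) : RR τ s y l n = runs τ s y (l - n) := if_neg h

lemma RR_le {n : ℕ} (h : n ≤ l) : RR τ s y l n = runs τ s y (l - n) := by
  by_cases h' : l ≤ n
  · have e : n - l = 0 := by omega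
    have e2 : l - n = 0 := by omega
    rw [RR_pos h', e, e2, List.drop_zero]
    rfl
  · exact RR_neg h'

lemma hR (n : ℕ) : RR τ s y l n = oo y l n ++ (belt τ).run (qq τ s l n) (RR τ s y l (n + 1)) := by
  by_cases h : l ≤ n
  · rw [oo_pos h, qq_pos h, run_none, RR_pos h, RR_pos (by omega)]
    have e3 : n + 1 - l = (n - l) + 1 := by omega
    rw [e3]
    generalize n - l = j
    by_cases hj : j < y.length
    · rw [List.getElem?_eq_getElem hj, Option.toList_some, List.drop_eq_getElem_cons hj]
      rfl
    · rw [List.getElem?_eq_none (by omega), Option.toList_none, List.drop_of_length_le (by omega),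
        List.drop_of_length_le (by omega)]
      rfl
  · rw [oo_neg h, qq_neg h, run_some, RR_neg h, RR_le (by omega)]
    have e1 : l - n = (l - n - 1) + 1 := by omega
    have e2 : l - (n + 1) = l - n - 1 := by omega
    rw [e2, e1]
    rfl

lemma h0 (n : ℕ) : XX τ s y l 0 n = some (qq τ s l n, oo y l n) := by
  unfold XX
  rw [Pool.Agent.TH381.RM3.cb, if_neg (by omega)]
  by_cases h : l ≤ n
  · rw [if_pos (by omega)]
    have e : (-(-(n : ℤ) + (l : ℤ))).toNat = n - l := by omega
    exact congrArg some (Prod.ext (qq_pos h).symm (by rw [oo_pos h, ← e]))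
  · rw [if_neg (by omega)]
    have e : (-(n : ℤ) + (l : ℤ) - 1).toNat = l - n - 1 := by omega
    rw [e]
    exact congrArg some (Prod.ext (qq_neg h).symm (oo_neg h).symm)

lemma sink (t : ℕ) : Pool.Agent.TH381.RM3.cb τ s y l t 1 = none := by
  induction t with
  | zero => rw [Pool.Agent.TH381.RM3.cb, if_pos le_rfl]
  | succ t ih => rw [Pool.Agent.TH381.RM3.cb, ih]; rfl

lemma hs (t n : ℕ) : XX τ s y l (t + 1) n =
    rule (belt τ) (XX τ s y l t (n + 1)) (XX τ s y l t n) (rt (XX τ s y l) t n) := by
  have e1 : (-(n : ℤ)) - 1 = -((n + 1 : ℕ) : ℤ) := by push_cast; ring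
  cases n with
  | zero =>
    show Pool.Agent.TH381.RM3.cb τ s y l (t + 1) (-((0 : ℕ) : ℤ)) = rule (belt τ) _ _ none
    rw [Pool.Agent.TH381.RM3.cb, e1]
    have e2 : -((0 : ℕ) : ℤ) + 1 = 1 := by norm_num
    rw [e2, sink]
    rfl
  | succ k =>
    show Pool.Agent.TH381.RM3.cb τ s y l (t + 1) (-((k + 1 : ℕ) : ℤ)) =
      rule (belt τ) _ _ (XX τ s y l t k)
    rw [Pool.Agent.TH381.RM3.cb, e1]
    have e2 : -((k + 1 : ℕ) : ℤ) + 1 = -(k : ℤ) := by push_cast; ring
    rw [e2]
    rfl

lemma DD_belt (hne : τ.NonErasing) (j : ℕ) (hj : j ≤ y.length) :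
    j ≤ DD (belt τ) (qq τ s l) (oo y l) (RR τ s y l) (l + j) 0 := by
  induction j with
  | zero => exact Nat.zero_le _
  | succ j ih =>
    have h1 := ih (by omega)
    have hl : (RR τ s y l (l + j)).length = y.length - j := by
      have e2 : l + j - l = j := by omega
      rw [RR_pos (by omega), e2, List.length_drop]
    have h2 := DD_lt (hR (s := s)) (nonErasing_belt hne) (l + j) 0 1 (by omega)
      (by rw [hl]; omega)
    have e : DD (belt τ) (qq τ s l) (oo y l) (RR τ s y l) (l + (j + 1)) 0 =
        DD (belt τ) (qq τ s l) (oo y l) (RR τ s y l) (l + j) 1 := by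
      show DD (belt τ) (qq τ s l) (oo y l) (RR τ s y l) (l + j) ((oo y l (l + j)).length +
        ((belt τ).run (qq τ s l (l + j)) ((RR τ s y l (l + j + 1)).take 0)).length) = _
      have e1 : (oo y l (l + j)).length = 1 := by
        have e2 : l + j - l = j := by omega
        rw [oo_pos (by omega), e2, List.getElem?_eq_getElem (by omega)]
        rfl
      have e3 : ((belt τ).run (qq τ s l (l + j)) ((RR τ s y l (l + j + 1)).take 0)).length = 0 := by
        rw [List.take_zero]
        rfl
      rw [e1, e3]
    rw [e]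
    omega

end belt

/-- **BELT3** -/
theorem belt3 : Pool.Agent.TH381.RM3.SBelt := by
  intro S τ s y l hne
  constructor
  · intro T hT
    have h1 := heads (σ := belt τ) (X := XX τ s y l) (hR (s := s)) h0 hs T
    have e0 : (fun t => (buf (Pool.Agent.TH381.RM3.cb τ s y l t 0)).head?) =
        fun t => (buf (XX τ s y l t 0)).head? := by
      funext t
      have e : -((0 : ℕ) : ℤ) = 0 := by norm_num
      unfold XX
      rw [e]
    have e1 : RR τ s y l 0 = runs τ s y l := by
      rw [RR_le (Nat.zero_le _), Nat.sub_zero]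
    rw [e0, h1, e1]
    refine List.take_of_length_le ?_
    by_contra hcon
    have h2 := speed (σ := belt τ) (X := XX τ s y l) (hR (s := s)) h0 hs (nonErasing_belt hne) l
      (fun n hn => by
        by_cases h : n ≤ l
        · omega
        · have e2 : n = l + (n - l) := by omega
          have h3 : n - l ≤ y.length := by
            rw [RR_pos (by omega), List.length_drop] at hn
            omega
          have h4 := DD_belt (s := s) (l := l) hne (n - l) h3
          rw [← e2] at h4
          omega) T 0 (by rw [e1]; omega)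
    have e4 : DD (belt τ) (qq τ s l) (oo y l) (RR τ s y l) 0 (em (belt τ) (XX τ s y l) 0 T) =
      em (belt τ) (XX τ s y l) 0 T := rfl
    rw [e4] at h2
    omega
  · intro L hL ho t
    have ho' : ∀ q x, ((belt τ).out q x).length ≤ L := by
      intro p x
      cases p with
      | none => exact hL
      | some p => exact ho p x
    induction t with
    | zero =>
      intro i
      rw [Pool.Agent.TH381.RM3.cb]
      split_ifs
      · exact Nat.zero_le _
      · refine le_trans ?_ hL
        show (y[(-(i + (l : ℤ))).toNat]?).toList.length ≤ 1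
        cases y[(-(i + (l : ℤ))).toNat]? with
        | none => exact Nat.zero_le _
        | some x => exact le_rfl
      · exact Nat.zero_le _
    | succ t ih =>
      intro i
      rw [Pool.Agent.TH381.RM3.cb]
      exact rule_buf ho' _ _ _ (ih i)

end Pool.Agent.TH621.RM3
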