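import Pool.Agent.TH381.RM3.Defs
import Pool.Agent.TH479.RM2.Belt

/-!
# Project RM3, part PIPE: the pipeline with given start states of the stages
-/

set_option autoImplicit false

namespace Pool.Agent.TH621.RM3.P

open Pool.Agent.H584R2.Dg Pool.Agent.W614.Dg Pool.Agent.TH381.RM Pool.Agent.TH381.RM2
open Pool.Agent.TH381.RM3 (runs)
open Pool.Agent.TH479.RM2 (rt em DD heads speed)

section pipe

variable {S : Type} (τ : Dgsm S) (s : ℕ → τ.Q) (y : List S) (l : ℕ)

/-- the cells -/
def XX (t n : ℕ) : Cell τ := Pool.Agent.TH381.RM3.cf τ s y l t (-(n : ℤ))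

/-- the states at the time `0` -/
def qq (n : ℕ) : τ.Q := if n = l then τ.init else s (l - n - 1)

/-- the buffers at the time `0` -/
def oo (n : ℕ) : List S := if n = l then y else []

/-- the words lost by the cells -/
def RR (n : ℕ) : List S := if n ≤ l then runs τ s y (l - n) else []

variable {τ s y l}

lemma hR (n : ℕ) : RR τ s y l n = oo y l n ++ τ.run (qq τ s l n) (RR τ s y l (n + 1)) := by
  unfold RR oo qq
  rcases lt_trichotomy n l with h | h | h
  · rw [if_pos h.le, if_neg (by omega), if_neg (by omega), if_pos (by omega)]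
    have e1 : l - n = (l - n - 1) + 1 := by omega
    have e2 : l - (n + 1) = l - n - 1 := by omega
    rw [e2, e1]
    rfl
  · subst h
    rw [if_pos le_rfl, if_pos rfl, if_pos rfl, if_neg (by omega), Nat.sub_self]
    simp [Dgsm.run, runs]
  · rw [if_neg (by omega), if_neg (by omega), if_neg (by omega), if_neg (by omega)]
    rfl

lemma h0 (n : ℕ) : XX τ s y l 0 n = some (qq τ s l n, oo y l n) := by
  unfold XX
  rw [Pool.Agent.TH381.RM3.cf]
  by_cases h : n = l
  · rw [if_pos (by omega)]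
    unfold qq oo
    rw [if_pos h, if_pos h]
  · rw [if_neg (by omega), if_neg (by omega)]
    have e : (-(n : ℤ) + (l : ℤ) - 1).toNat = l - n - 1 := by omega
    unfold qq oo
    rw [e, if_neg h, if_neg h]

lemma sink (t : ℕ) : Pool.Agent.TH381.RM3.cf τ s y l t 1 = none := by
  induction t with
  | zero => rw [Pool.Agent.TH381.RM3.cf, if_neg (by omega), if_pos le_rfl]
  | succ t ih => rw [Pool.Agent.TH381.RM3.cf, ih]; rfl

lemma hs (t n : ℕ) : XX τ s y l (t + 1) n =
    rule τ (XX τ s y l t (n + 1)) (XX τ s y l t n) (rt (XX τ s y l) t n) := by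
  have e1 : (-(n : ℤ)) - 1 = -((n + 1 : ℕ) : ℤ) := by push_cast; ring
  cases n with
  | zero =>
    show Pool.Agent.TH381.RM3.cf τ s y l (t + 1) (-((0 : ℕ) : ℤ)) = rule τ _ _ none
    rw [Pool.Agent.TH381.RM3.cf, e1]
    have e2 : -((0 : ℕ) : ℤ) + 1 = 1 := by norm_num
    rw [e2, sink]
    rfl
  | succ k =>
    show Pool.Agent.TH381.RM3.cf τ s y l (t + 1) (-((k + 1 : ℕ) : ℤ)) =
      rule τ _ _ (XX τ s y l t k)
    rw [Pool.Agent.TH381.RM3.cf, e1]
    have e2 : -((k + 1 : ℕ) : ℤ) + 1 = -(k : ℤ) := by push_cast; ring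
    rw [e2]
    rfl

end pipe

/-- **PIPE3** -/
theorem pipe3 : Pool.Agent.TH381.RM3.SPipe := by
  intro S τ s y l hne T hT
  have h1 := heads (σ := τ) (X := XX τ s y l) (hR (s := s)) h0 hs T
  have e0 : (fun t => (buf (Pool.Agent.TH381.RM3.cf τ s y l t 0)).head?) =
      fun t => (buf (XX τ s y l t 0)).head? := by
    funext t
    have e : -((0 : ℕ) : ℤ) = 0 := by norm_num
    unfold XX
    rw [e]
  have e1 : RR τ s y l 0 = runs τ s y l := by
    unfold RR
    rw [if_pos (Nat.zero_le _), Nat.sub_zero]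
  rw [e0, h1, e1]
  refine List.take_of_length_le ?_
  by_contra hcon
  have h2 := speed (σ := τ) (X := XX τ s y l) (hR (s := s)) h0 hs hne l
    (fun n hn => by
      by_cases h : n ≤ l
      · omega
      · unfold RR at hn
        rw [if_neg h] at hn
        exact absurd hn (lt_irrefl _)) T 0 (by rw [e1]; omega)
  have e4 : DD τ (qq τ s l) (oo y l) (RR τ s y l) 0 (em τ (XX τ s y l) 0 T) =
    em τ (XX τ s y l) 0 T := rfl
  rw [e4] at h2
  omega

end Pool.Agent.TH621.RM3.P

theorem Pool.Agent.TH621.RM3.pipe3 : Pool.Agent.TH381.RM3.SPipe := Pool.Agent.TH621.RM3.P.pipe3
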